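import Mathlib

set_option autoImplicit false
set_option maxHeartbeats 400000

namespace Pool.Agent.Results.MP_041051_al.NonAdditive

open MonoidAlgebra Classical

def op (i j : ℕ) : ℕ := if i = 0 then j else if j = 0 then i else Nat.pair i j + 3

theorem op_left {i i' : ℕ} (j : ℕ) (h : i < i') : op i j < op i' j := by
  have := Nat.pair_lt_pair_left j h
  have := Nat.right_le_pair i' j
  unfold op
  split_ifs <;> omega

theorem op_right (i : ℕ) {j j' : ℕ} (h : j < j') : op i j < op i j' := by
  have := Nat.pair_lt_pair_right i h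
  have := Nat.left_le_pair i j'
  unfold op
  split_ifs <;> omega

theorem op_mono {i i' j j' : ℕ} (h : i ≤ i') (h' : j ≤ j') : op i j ≤ op i' j' :=
  le_trans (h.eq_or_lt.elim (fun e => e ▸ le_rfl) fun e => (op_left j e).le)
    (h'.eq_or_lt.elim (fun e => e ▸ le_rfl) fun e => (op_right i' e).le)

theorem op_pos {i j : ℕ} (hi : 0 < i) (hj : 0 < j) : i < op i j ∧ j < op i j ∧ 2 < op i j := by
  have := Nat.right_le_pair i j
  have := Nat.left_le_pair i j
  unfold op
  split_ifs <;> omega

theorem op_inj {i j i' j' : ℕ} (hi : 0 < i) (hj : 0 < j) (hi' : 0 < i') (hj' : 0 < j')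
    (h : op i j = op i' j') : i = i' ∧ j = j' := by
  simpa [op, hi.ne', hj.ne', hi'.ne', hj'.ne'] using h

@[ext] structure T where
  n : ℕ

instance : MulOneClass T where
  mul a b := ⟨op a.n b.n⟩
  one := ⟨0⟩
  one_mul _ := rfl
  mul_one a := T.ext (by change op a.n 0 = a.n; unfold op; split_ifs <;> omega)

abbrev R := MonoidAlgebra (ZMod 2) T

noncomputable def deg (r : R) : ℕ := r.coeff.support.sup T.n

theorem two (r : R) : r + r = 0 := by
  ext t
  simp [CharTwo.add_self_eq_zero]

theorem le_deg {r : R} {t : T} (h : t ∈ r.coeff.support) : t.n ≤ deg r := Finset.le_sup h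

theorem coeff_deg {r : R} (h : r ≠ 0) : r.coeff ⟨deg r⟩ = 1 := by
  obtain ⟨t, ht, e⟩ := Finset.exists_mem_eq_sup r.coeff.support (by simpa using h) T.n
  rw [deg, e]
  have := Finsupp.mem_support_iff.1 ht
  revert this
  generalize r.coeff t = c
  decide +revert

theorem deg_add (a b : R) : deg (a + b) ≤ max (deg a) (deg b) :=
  Finset.sup_le fun t ht => by
    rcases Finset.mem_union.1 (Finsupp.support_add ht) with h | h
    exacts [le_max_of_le_left (le_deg h), le_max_of_le_right (le_deg h)]

theorem deg_eq {a b : R} (h : deg (a + b) < deg a) : deg a = deg b := by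
  have h1 := deg_add (a + b) b
  have h2 := deg_add a (a + b)
  rw [add_assoc, two, add_zero] at h1
  rw [← add_assoc, two, zero_add] at h2
  omega

theorem deg_zero : deg 0 = 0 := rfl

theorem deg_one : deg 1 = 0 := by
  rw [deg, one_def, coeff_single, Finsupp.support_single _ one_ne_zero]
  rfl

theorem ne_of_deg {a : R} (h : 0 < deg a) : a ≠ 0 := fun e => by simp [e, deg_zero] at h

theorem deg_lt {a b : R} (h : 0 < deg a) (e : deg a = deg b) : deg (a + b) < deg a := by
  refine (Finset.sup_lt_iff h).2 fun t ht => lt_of_le_of_ne ((le_deg ht).trans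
    ((deg_add a b).trans (by omega))) fun k => Finsupp.mem_support_iff.1 ht ?_
  obtain rfl : t = ⟨deg a⟩ := T.ext k
  rw [coeff_add, Finsupp.add_apply, coeff_deg (ne_of_deg h), e, coeff_deg (ne_of_deg (e ▸ h))]
  rfl

theorem of_deg {r : R} (h : deg r = 0) : r = 0 ∨ r = 1 := by
  by_cases h0 : r = 0
  · exact Or.inl h0
  · right
    ext t
    by_cases ht : t = 1
    · rw [ht, one_def, coeff_single, Finsupp.single_eq_same]
      have := coeff_deg h0
      rwa [h] at this
    · rw [one_def, coeff_single, Finsupp.single_eq_of_ne ht]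
      by_contra k
      exact ht (T.ext (Nat.le_zero.1 (h ▸ le_deg (Finsupp.mem_support_iff.2 k))))

theorem deg_add_one (a : R) : deg (a + 1) = deg a := by
  have h1 := deg_add a 1
  have h2 := deg_add (a + 1) 1
  rw [add_assoc, two, add_zero] at h2
  rw [deg_one] at h1 h2
  omega

theorem deg_mul_le (a b : R) : deg (a * b) ≤ op (deg a) (deg b) :=
  Finset.sup_le fun t ht => by
    obtain ⟨i, hi, j, hj, rfl⟩ := Finset.mem_mul.1 (support_coeff_mul_subset a b ht)
    exact op_mono (le_deg hi) (le_deg hj)

theorem deg_mul {a b : R} (ha : a ≠ 0) (hb : b ≠ 0) : deg (a * b) = op (deg a) (deg b) := by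
  refine (deg_mul_le a b).antisymm (le_deg (t := ⟨deg a⟩ * ⟨deg b⟩) (Finsupp.mem_support_iff.2 ?_))
  rw [coeff_mul_mul_of_uniqueMul, coeff_deg ha, coeff_deg hb]
  · decide
  · intro i j hi hj e
    have e' : op i.n j.n = op (deg a) (deg b) := congrArg T.n e
    have h1 := le_deg hi
    have h2 := le_deg hj
    refine ⟨T.ext (h1.antisymm (not_lt.1 fun k => ?_)), T.ext (h2.antisymm (not_lt.1 fun k => ?_))⟩
    · exact ((op_left _ k).trans_le (op_mono le_rfl h2)).ne e'
    · exact ((op_right _ k).trans_le (op_mono h1 le_rfl)).ne e'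

noncomputable def ep (r : R) : ZMod 2 := r.coeff 1

theorem ep_add (a b : R) : ep (a + b) = ep a + ep b := by simp [ep]
theorem ep_one : ep 1 = 1 := by simp [ep, one_def]
theorem ep_mul (a b : R) : ep (a * b) = ep a * ep b := by
  rw [ep, ← one_mul (1 : T), coeff_mul_mul_of_uniqueMul]
  · rfl
  · intro i j _ _ e
    have e' : op i.n j.n = 0 := congrArg T.n e
    refine ⟨T.ext ?_, T.ext ?_⟩ <;> change _ = 0 <;> unfold op at e' <;> split_ifs at e' <;> omega

def P (r : R) (p : R × R) : Prop := 0 < deg p.1 ∧ 0 < deg p.2 ∧ deg (p.1 * p.2 + r) = 0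

theorem P_deg {r : R} {p : R × R} (h : P r p) : deg r = op (deg p.1) (deg p.2) := by
  have h1 := deg_mul (ne_of_deg h.1) (ne_of_deg h.2.1)
  have := op_pos h.1 h.2.1
  rw [← h1, deg_eq (a := p.1 * p.2) (b := r) (by rw [h.2.2]; omega)]

noncomputable def x : R := single ⟨1⟩ 1
noncomputable def y : R := single ⟨2⟩ 1

noncomputable def del (r : R) : ZMod 2 :=
  if _h : ∃ p, P r p then
    ep (epsilon (P r)).1 * del (epsilon (P r)).2 + ep (epsilon (P r)).2 * del (epsilon (P r)).1
  else if deg (x + y + r) = 0 then 1 else 0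
termination_by deg r
decreasing_by
  all_goals
    have h1 := epsilon_spec _h
    have := op_pos h1.1 h1.2.1
    rw [P_deg h1]
    omega

theorem del_one (r : R) : del (r + 1) = del r := by
  have : P (r + 1) = P r := by
    funext p
    simp only [P, ← add_assoc, deg_add_one]
  rw [del, del.eq_def r]
  simp only [this, ← add_assoc, deg_add_one]

theorem del_const {r c : R} (h : deg c = 0) : del (r + c) = del r := by
  rcases of_deg h with rfl | rfl
  exacts [by rw [add_zero], del_one r]

theorem deg_x : deg x = 1 := by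
  rw [deg, x, coeff_single, Finsupp.support_single _ one_ne_zero]; rfl
theorem deg_y : deg y = 2 := by
  rw [deg, y, coeff_single, Finsupp.support_single _ one_ne_zero]; rfl

theorem del_low {r : R} (h : deg r ≤ 2) : del r = if deg (x + y + r) = 0 then 1 else 0 := by
  rw [del, dif_neg]
  rintro ⟨p, hp⟩
  have := op_pos hp.1 hp.2.1
  rw [P_deg hp] at h
  omega

theorem del_zero : del 0 = 0 := by
  rw [del_low (by simp [deg_zero]), if_neg]
  intro h
  have := deg_eq (a := x) (b := y) (by rw [add_zero] at h; rw [h, deg_x]; omega)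
  rw [deg_x, deg_y] at this
  omega

theorem del_mul (n : ℕ) : ∀ A B : R, op (deg A) (deg B) = n →
    del (A * B) = ep A * del B + ep B * del A := by
  induction n using Nat.strong_induction_on with
  | _ n ih =>
  intro A B hn
  have d1 : del 1 = 0 := by rw [← zero_add 1, del_one, del_zero]
  have e0 : ep 0 = 0 := rfl
  by_cases hA : deg A = 0
  · rcases of_deg hA with rfl | rfl <;> simp [del_zero, e0, ep_one, d1]
  by_cases hB : deg B = 0
  · rcases of_deg hB with rfl | rfl <;> simp [del_zero, e0, ep_one, d1]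
  replace hA := Nat.pos_of_ne_zero hA
  replace hB := Nat.pos_of_ne_zero hB
  have h : ∃ p, P (A * B) p := ⟨(A, B), hA, hB, by rw [two, deg_zero]⟩
  rw [del, dif_pos h]
  have hp := epsilon_spec h
  generalize epsilon (P (A * B)) = p at hp ⊢
  obtain ⟨C, D⟩ := p
  obtain ⟨h1, h2⟩ := op_inj hA hB hp.1 hp.2.1
    ((deg_mul (ne_of_deg hA) (ne_of_deg hB)).symm.trans (P_deg hp))
  obtain ⟨E, rfl⟩ : ∃ E, C = A + E := ⟨A + C, by rw [← add_assoc, two, zero_add]⟩
  obtain ⟨G, rfl⟩ : ∃ G, D = B + G := ⟨B + D, by rw [← add_assoc, two, zero_add]⟩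
  have hE := deg_lt hA h1
  have hG := deg_lt hB h2
  simp only [← add_assoc, two, zero_add] at hE hG
  have h3 : deg (A * G + (E * B + E * G)) = 0 := by
    rw [← hp.2.2, add_mul, mul_add, mul_add]
    congr 1
    linear_combination (norm := abel) -two (A * B)
  obtain ⟨o1, o2, -⟩ := op_pos hA hB
  have key : ∀ U V : R, U ≠ 0 → V ≠ 0 → deg (U * V) ≤ deg A ∨ deg (U * V) ≤ deg B →
      del (U * V) = ep U * del V + ep V * del U := fun U V hU hV k =>
    ih _ (by rw [← deg_mul hU hV]; omega) U V rfl
  by_cases hG0 : G = 0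
  · by_cases hE0 : E = 0
    · simp [hG0, hE0]
    · rw [hG0, mul_zero, mul_zero, zero_add, add_zero, deg_mul hE0 (ne_of_deg hB)] at h3
      have := op_mono (Nat.zero_le (deg E)) (le_refl (deg B))
      simp only [op, if_true] at this h3
      omega
  have h4 : op (deg E) (deg G) < op (deg A) (deg G) := op_left _ hE
  have h5 := deg_mul (ne_of_deg hA) hG0
  have h6 := deg_mul_le E G
  have h7 : deg (A * G) = deg (E * B + E * G) := deg_eq (by omega)
  have hE0 : E ≠ 0 := by
    rintro rfl
    rw [zero_mul, zero_mul, add_zero, deg_zero] at h7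
    omega
  have h8 : deg (E * B + E * G) = deg (E * B) := by
    have := deg_eq (a := E * B + E * G) (b := E * B)
      (by rw [add_right_comm, two, zero_add]; omega)
    exact this
  have h9 : op (deg A) (deg G) = op (deg E) (deg B) := by
    rw [← h5, h7, h8, deg_mul hE0 (ne_of_deg hB)]
  by_cases k1 : deg G = 0
  · obtain rfl := (of_deg k1).resolve_left hG0
    obtain ⟨c, hc, rfl⟩ : ∃ c, deg c = 0 ∧ A = E * (B + 1) + c := by
      refine ⟨_, h3, ?_⟩
      rw [mul_add]
      linear_combination (norm := abel) mul_one A - two (E * B) - two (E * 1) - mul_one A - mul_one A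
    have hB1 : B + 1 ≠ 0 := ne_of_deg (by rwa [deg_add_one])
    have e1 : E * (B + 1) + c + E = E * B + c := by
      rw [mul_add, mul_one]
      linear_combination (norm := abel) two E
    have e2 := deg_add (E * (B + 1) + c) c
    rw [add_assoc, two, add_zero] at e2
    have e3 := deg_add (E * B + c) c
    rw [add_assoc, two, add_zero] at e3
    rw [e1] at h1
    replace h1 : deg (E * (B + 1) + c) = deg (E * B + c) := h1
    simp only [e1, del_const hc, del_one, ep_add, ep_mul, ep_one]
    rw [key E (B + 1) hE0 hB1 (by omega), key E B hE0 (ne_of_deg hB) (by omega)]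
    simp only [del_one, ep_add, ep_one]
    generalize ep E = a, ep B = b, ep c = d, del E = e, del B = f
    decide +revert
  · obtain rfl : E = 1 := (of_deg (by
      by_contra k2
      exact hE.ne' (op_inj hA (by omega) (by omega) hB h9).1)).resolve_left hE0
    obtain ⟨c, hc, rfl⟩ : ∃ c, deg c = 0 ∧ B = (A + 1) * G + c := by
      refine ⟨_, h3, ?_⟩
      rw [add_mul]
      linear_combination (norm := abel) - two (A * G) - two (1 * G) - one_mul B
    have hA1 : A + 1 ≠ 0 := ne_of_deg (by rwa [deg_add_one])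
    have e1 : (A + 1) * G + c + G = A * G + c := by
      rw [add_mul, one_mul]
      linear_combination (norm := abel) two G
    have e2 := deg_add ((A + 1) * G + c) c
    rw [add_assoc, two, add_zero] at e2
    rw [one_mul ((A + 1) * G + c)] at h7 h8
    simp only [e1, del_const hc, del_one, ep_add, ep_mul, ep_one]
    rw [key (A + 1) G hA1 hG0 (by omega), key A G (ne_of_deg hA) hG0 (by omega)]
    simp only [del_one, ep_add, ep_one]
    generalize ep A = a, ep G = b, ep c = d, del A = e, del G = f
    decide +revert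

theorem result : ∃ (R S : Type) (_ : NonAssocRing R) (_ : CommRing S) (f : R → S),
    (∀ a, f (1 + a) = 1 + f a) ∧ (∀ a b, f (a * b) = f a * f b) ∧
      ∃ a b, f (a + b) ≠ f a + f b := by
  refine ⟨R, DualNumber (ZMod 2), inferInstance, inferInstance, fun r => (ep r, del r),
    fun a => ?_, fun a b => ?_, x, y, fun h => ?_⟩
  · refine TrivSqZeroExt.ext ?_ ?_
    · change ep (1 + a) = 1 + ep a
      rw [ep_add, ep_one]
    · change del (1 + a) = 0 + del a
      rw [add_comm, del_one, zero_add]
  · refine TrivSqZeroExt.ext (ep_mul a b) ?_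
    rw [DualNumber.snd_mul]
    exact (del_mul _ a b rfl).trans (by rw [mul_comm (ep b)]; rfl)
  · have h1 : del (x + y) = del x + del y := congrArg TrivSqZeroExt.snd h
    have h2 := deg_add x y
    rw [deg_x, deg_y] at h2
    rw [del_low h2, del_low (deg_x.le.trans one_le_two), del_low deg_y.le, two, add_right_comm, two,
      zero_add, add_assoc, two, add_zero, deg_x, deg_y, deg_zero] at h1
    exact absurd h1 (by decide)

end Pool.Agent.Results.MP_041051_al.NonAdditive
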